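import Pool.Agent.S2T.Final

/-!
# Sharply 2-transitive groups with locally finite point stabilizer and no regular normal subgroup
-/

set_option autoImplicit false

namespace Pool.Agent.Results.MP_c1ff13_al.NonSplitEmbedding

/-- `G` is sharply 2-transitive on `Ω`. -/
def SharplyTwoTransitive {Ω : Type} (G : Subgroup (Equiv.Perm Ω)) : Prop :=
  ∀ a b c d : Ω, a ≠ b → c ≠ d → ∃! g : G, g • a = c ∧ g • b = d

/-- Every finitely generated subgroup of `A` is finite. -/
def LocallyFiniteGroup (A : Type) [Group A] : Prop := ∀ K : Subgroup A, K.FG → Finite K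

/-- `N` is regular on `Ω`. -/
def Regular {Ω : Type} {G : Subgroup (Equiv.Perm Ω)} (N : Subgroup G) : Prop :=
  ∀ a b : Ω, ∃! n : N, (n : G) • a = b

/-- Every countable group `Γ` embeds into a permutation group `G` which is sharply 2-transitive on a
set `Ω`, all of whose point stabilizers are locally finite and contain no involution, and which has
neither a regular normal subgroup nor a nontrivial abelian normal subgroup. -/
theorem result (Γ : Type) [Group Γ] [Countable Γ] :
    ∃ (Ω : Type) (_ : Nontrivial Ω) (G : Subgroup (Equiv.Perm Ω)) (φ : Γ →* G),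
      Function.Injective φ ∧ SharplyTwoTransitive G ∧
      (∀ ω : Ω, LocallyFiniteGroup (MulAction.stabilizer G ω)) ∧
      (∀ (ω : Ω) (g : G), g • ω = ω → g * g = 1 → g = 1) ∧
      (∀ N : Subgroup G, N.Normal → ¬ Regular N) ∧
      ∀ N : Subgroup G, N.Normal → (∀ x ∈ N, ∀ y ∈ N, x * y = y * x) → N = ⊥ :=
  S2T.exists_embedding Γ

end Pool.Agent.Results.MP_c1ff13_al.NonSplitEmbedding
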